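import Pool.Agent.Helper82.NL.Result

/-!
MP_3235d4_lc, Q1: one compact path connected space of dimension one in `ℂ × ℂ` whose degree
spectrum consists exactly of the oracles which are not low.
-/

namespace Pool.Agent.Results.MP_3235d4_lc.NonLowSpectrum

open Pool.Agent.Helper82.NL

/-- There is a compact path connected set `X ⊆ ℂ × ℂ` of Hausdorff dimension one such that for every
oracle `g` the space `X` has a `g`-computable Polish presentation if and only if `g` is not low;
and there is a low₂ oracle which is not low. -/
theorem result : ∃ X : Set (ℂ × ℂ), IsCompact X ∧ IsPathConnected X ∧ dimH X = 1 ∧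
    (∀ g : ℕ → ℕ, Presented g X ↔ ¬ Low g) ∧ ∃ g : ℕ → ℕ, LowTwo g ∧ ¬ Low g :=
  spectrum

end Pool.Agent.Results.MP_3235d4_lc.NonLowSpectrum
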